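import Pool.Agent.H727R4.CLT.Stmts

/-! Task Grow of project H727-CLT (growth of the Christoffel sum). -/

set_option autoImplicit false
open MeasureTheory ProbabilityTheory Filter Topology Set Polynomial
open scoped ENNReal NNReal
open Pool.Agent.Helper553.Orth
open Pool.Agent.H727R4.CLT

namespace Pool.Agent.H643R3.CLT

theorem grow_coeffs {f : ℝ → ℝ} {W : ℝ[X]} {s : ℕ} {q : ℕ → ℝ[X]} (hON : ON f W s q) (R : ℝ[X])
    (hR : R.natDegree ≤ s) : ∃ c : ℕ → ℝ, R = ∑ k ∈ Finset.range (s + 1), C (c k) * q k := by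
  have hne : ∀ j ≤ s, q j ≠ 0 := by
    intro j hj h0
    have := hON.on j hj j hj
    rw [h0] at this
    simp at this
  obtain ⟨c, hc⟩ := exists_coeffs (fun j => if j ≤ s then q j else X ^ j) (by
    intro k
    by_cases h : k ≤ s
    · simp [h, hne k h]
    · simp [h]) (by
    intro k
    by_cases h : k ≤ s
    · simp [h, hON.deg k h]
    · simp [h]) s R hR
  refine ⟨c, ?_⟩
  conv_lhs => rw [hc]
  apply Finset.sum_congr rfl
  intro k hk
  have hk' : k ≤ s := by
    rw [Finset.mem_range] at hk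
    omega
  simp [hk']

theorem grow_cs {f : ℝ → ℝ} (hf : Integrable f m01) {W : ℝ[X]} {s : ℕ} {q : ℕ → ℝ[X]}
    (hON : ON f W s q) (R : ℝ[X]) (hR : R.natDegree ≤ s) (x : ℝ) :
    (R.eval x) ^ 2 ≤ (∑ j ∈ Finset.range (s + 1), ((q j).eval x) ^ 2) *
      ∫ t, f t * (W * R * (W * R)).eval t ∂m01 := by
  obtain ⟨c, hc⟩ := grow_coeffs hON R hR
  have h1 : ∀ t, R.eval t = ∑ k ∈ Finset.range (s + 1), c k * (q k).eval t := by
    intro t
    conv_lhs => rw [hc]
    simp [eval_finsetSum]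
  have h2 : ∫ t, f t * (W * R * (W * R)).eval t ∂m01 = ∑ k ∈ Finset.range (s + 1), c k ^ 2 := by
    have e1 : ∀ t, f t * (W * R * (W * R)).eval t =
        ∑ i ∈ Finset.range (s + 1), ∑ j ∈ Finset.range (s + 1),
          c i * c j * (f t * (W * q i * (W * q j)).eval t) := by
      intro t
      simp only [eval_mul]
      rw [h1 t]
      have e2 : f t * (W.eval t * (∑ k ∈ Finset.range (s + 1), c k * (q k).eval t) *
          (W.eval t * (∑ k ∈ Finset.range (s + 1), c k * (q k).eval t))) =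
          (f t * W.eval t * W.eval t) * ((∑ k ∈ Finset.range (s + 1), c k * (q k).eval t) *
            (∑ k ∈ Finset.range (s + 1), c k * (q k).eval t)) := by ring
      rw [e2, Finset.sum_mul_sum, Finset.mul_sum]
      apply Finset.sum_congr rfl
      intro i _
      rw [Finset.mul_sum]
      apply Finset.sum_congr rfl
      intro j _
      ring
    rw [integral_congr_ae (Eventually.of_forall e1)]
    rw [integral_finsetSum]
    · have e3 : ∀ i ∈ Finset.range (s + 1), ∫ t, ∑ j ∈ Finset.range (s + 1),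
          c i * c j * (f t * (W * q i * (W * q j)).eval t) ∂m01 = c i ^ 2 := by
        intro i hi
        rw [integral_finsetSum]
        · rw [Finset.sum_eq_single i]
          · rw [integral_const_mul, hON.on i (by rw [Finset.mem_range] at hi; omega) i
              (by rw [Finset.mem_range] at hi; omega)]
            simp [pow_two]
          · intro j hj hji
            rw [integral_const_mul, hON.on i (by rw [Finset.mem_range] at hi; omega) j
              (by rw [Finset.mem_range] at hj; omega)]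
            simp [Ne.symm hji]
          · intro h
            exact absurd hi h
        · intro j _
          exact (integrable_mul_poly hf _).const_mul _
      exact Finset.sum_congr rfl e3
    · intro i _
      apply integrable_finsetSum
      intro j _
      exact (integrable_mul_poly hf _).const_mul _
  rw [h1 x, h2, mul_comm]
  exact Finset.sum_mul_sq_le_sq_mul_sq _ _ _

/-- The exponents. -/
def EE (i : ℕ) : ℕ := 2 ^ (3 * i + 32)

theorem EE_def (i : ℕ) : EE i = 2 ^ (3 * i + 32) := rfl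

theorem EE_pos (i : ℕ) : 0 < EE i := by rw [EE_def]; exact Nat.pow_pos (by norm_num)

theorem EE_cast (i : ℕ) : (EE i : ℝ) = 2 ^ (3 * i + 32) := by
  rw [EE_def, Nat.cast_pow]; norm_num

attribute [irreducible] EE

def ll (s i : ℕ) : ℕ := s / EE i + 1

theorem ll_ge (s i : ℕ) : s ≤ EE i * ll s i := by
  have hE : 0 < EE i := EE_pos i
  have := Nat.div_add_mod s (EE i)
  have h2 := Nat.mod_lt s hE
  unfold ll
  rw [mul_add, mul_one]
  omega

theorem pow_aux (i : ℕ) : i + 13 ≤ 2 ^ (i + 4) := by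
  induction i with
  | zero => norm_num
  | succ i ih =>
    have : 2 ^ (i + 1 + 4) = 2 * 2 ^ (i + 4) := by ring
    omega

theorem half_sum (M : ℕ) : ∑ i ∈ Finset.range M, (1 / 2 : ℝ) ^ (i + 1) ≤ 1 := by
  have : ∑ i ∈ Finset.range M, (1 / 2 : ℝ) ^ (i + 1) = 1 - (1 / 2) ^ M := by
    induction M with
    | zero => simp
    | succ M ih =>
      rw [Finset.sum_range_succ, ih]
      ring
  rw [this]
  have : (0 : ℝ) ≤ (1 / 2) ^ M := by positivity
  linarith

theorem exps (s M : ℕ) : 2 * ∑ i ∈ Finset.range M, (i + 13) * ll s i ≤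
    s + 2 * ∑ i ∈ Finset.range M, (i + 13) := by
  have key : (∑ i ∈ Finset.range M, (2 * (i + 13) * (s / EE i) : ℕ) : ℕ) ≤ s := by
    have h1 : ((∑ i ∈ Finset.range M, (2 * (i + 13) * (s / EE i) : ℕ) : ℕ) : ℝ) ≤ s := by
      rw [Nat.cast_sum]
      calc ∑ i ∈ Finset.range M, ((2 * (i + 13) * (s / EE i) : ℕ) : ℝ)
          ≤ ∑ i ∈ Finset.range M, (s : ℝ) * (1 / 2) ^ (i + 1) := by
            apply Finset.sum_le_sum
            intro i _
            have h2 : ((s / EE i : ℕ) : ℝ) ≤ (s : ℝ) / (EE i : ℝ) := Nat.cast_div_le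
            have h3 : (((i + 13 : ℕ)) : ℝ) ≤ 2 ^ (i + 4) := by exact_mod_cast pow_aux i
            have hE : (EE i : ℝ) = 2 ^ (3 * i + 32) := EE_cast i
            have h4 : ((2 * (i + 13) * (s / EE i) : ℕ) : ℝ) =
                2 * ((i + 13 : ℕ) : ℝ) * ((s / EE i : ℕ) : ℝ) := by
              rw [Nat.cast_mul, Nat.cast_mul]; norm_num
            rw [h4]
            calc 2 * ((i + 13 : ℕ) : ℝ) * ((s / EE i : ℕ) : ℝ)
                ≤ 2 * 2 ^ (i + 4) * ((s : ℝ) / (EE i : ℝ)) := by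
                  apply mul_le_mul
                  · linarith
                  · exact h2
                  · exact Nat.cast_nonneg _
                  · positivity
              _ = (s : ℝ) * (2 ^ (i + 5) / 2 ^ (3 * i + 32)) := by
                  rw [hE, pow_succ 2 (i + 4)]
                  generalize (2 : ℝ) ^ (i + 4) = a
                  generalize (2 : ℝ) ^ (3 * i + 32) = b
                  ring
              _ ≤ (s : ℝ) * (1 / 2) ^ (i + 1) := by
                  apply mul_le_mul_of_nonneg_left _ (Nat.cast_nonneg s)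
                  rw [one_div, inv_pow, ← one_div, div_le_div_iff₀ (by positivity) (by positivity),
                    ← pow_add, one_mul]
                  apply pow_le_pow_right₀ (by norm_num)
                  omega
        _ = (s : ℝ) * ∑ i ∈ Finset.range M, (1 / 2 : ℝ) ^ (i + 1) := by rw [Finset.mul_sum]
        _ ≤ (s : ℝ) * 1 := mul_le_mul_of_nonneg_left (half_sum M) (Nat.cast_nonneg s)
        _ = s := mul_one _
    exact_mod_cast h1
  have e : 2 * ∑ i ∈ Finset.range M, (i + 13) * ll s i =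
      (∑ i ∈ Finset.range M, (2 * (i + 13) * (s / EE i) : ℕ)) +
        2 * ∑ i ∈ Finset.range M, (i + 13) := by
    rw [Finset.mul_sum, Finset.mul_sum, ← Finset.sum_add_distrib]
    apply Finset.sum_congr rfl
    intro i _
    unfold ll
    ring
  omega

/-- The test polynomial. -/
noncomputable def RR (s M : ℕ) (c : ℕ → ℝ) : ℝ[X] :=
  (C 4 * X) ^ (s - ∑ i ∈ Finset.range M, ll s i) * ∏ i ∈ Finset.range M, (X - C (c i)) ^ ll s i

theorem RR_eval (s M : ℕ) (c : ℕ → ℝ) (t : ℝ) : (RR s M c).eval t =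
    (4 * t) ^ (s - ∑ i ∈ Finset.range M, ll s i) * ∏ i ∈ Finset.range M, (t - c i) ^ ll s i := by
  unfold RR
  simp [eval_prod]

theorem RR_deg (s M : ℕ) (c : ℕ → ℝ) (h : ∑ i ∈ Finset.range M, ll s i ≤ s) :
    (RR s M c).natDegree ≤ s := by
  unfold RR
  refine natDegree_mul_le.trans ?_
  have h1 : ((C (4 : ℝ) * X) ^ (s - ∑ i ∈ Finset.range M, ll s i) : ℝ[X]).natDegree ≤
      s - ∑ i ∈ Finset.range M, ll s i := by
    refine natDegree_pow_le.trans ?_
    have : (C (4 : ℝ) * X : ℝ[X]).natDegree ≤ 1 :=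
      (natDegree_C_mul_le _ _).trans natDegree_X_le
    calc (s - ∑ i ∈ Finset.range M, ll s i) * (C (4 : ℝ) * X : ℝ[X]).natDegree
        ≤ (s - ∑ i ∈ Finset.range M, ll s i) * 1 := Nat.mul_le_mul_left _ this
      _ = _ := mul_one _
  have h2 : (∏ i ∈ Finset.range M, (X - C (c i)) ^ ll s i : ℝ[X]).natDegree ≤
      ∑ i ∈ Finset.range M, ll s i := by
    refine (natDegree_prod_le _ _).trans ?_
    apply Finset.sum_le_sum
    intro i _
    refine natDegree_pow_le.trans ?_
    rw [natDegree_X_sub_C, mul_one]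
  omega

theorem RR_low {s M : ℕ} {c : ℕ → ℝ} (hc : ∀ i < M, c i ∈ Icc (1 / 4 : ℝ) 1) {t : ℝ}
    (ht : t ∈ Icc (0 : ℝ) (1 / 4)) : |(RR s M c).eval t| ≤ 1 := by
  rw [RR_eval, abs_mul, abs_pow, Finset.abs_prod]
  have h1 : |4 * t| ≤ 1 := by
    rw [abs_le]; constructor <;> linarith [ht.1, ht.2]
  have h2 : ∏ i ∈ Finset.range M, |(t - c i) ^ ll s i| ≤ 1 := by
    apply Finset.prod_le_one
    · intro i _; positivity
    · intro i hi
      rw [abs_pow]
      apply pow_le_one₀ (abs_nonneg _)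
      have := hc i (Finset.mem_range.mp hi)
      rw [abs_le]; constructor <;> linarith [ht.1, ht.2, this.1, this.2]
  calc |4 * t| ^ (s - ∑ i ∈ Finset.range M, ll s i) * ∏ i ∈ Finset.range M, |(t - c i) ^ ll s i|
      ≤ 1 * 1 := mul_le_mul (pow_le_one₀ (abs_nonneg _) h1) h2
        (Finset.prod_nonneg (fun _ _ => abs_nonneg _)) (by norm_num)
    _ = 1 := by norm_num

theorem RR_blob {s M : ℕ} {c w : ℕ → ℝ} (hc : ∀ i < M, c i ∈ Icc (1 / 4 : ℝ) 1)
    (hw : ∀ i, 0 < w i ∧ w i ≤ (1 / 4) ^ EE i) {t : ℝ}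
    (ht : t ∈ Icc (0 : ℝ) 1) {i : ℕ} (hi : i < M) (hti : t ∈ Icc (c i) (c i + w i)) :
    |(RR s M c).eval t| ≤ 1 := by
  rw [RR_eval, abs_mul, abs_pow, Finset.abs_prod]
  have h1 : |4 * t| ≤ 4 := by
    rw [abs_le]; constructor <;> linarith [ht.1, ht.2]
  have h2 : |4 * t| ^ (s - ∑ i ∈ Finset.range M, ll s i) ≤ 4 ^ s := by
    calc |4 * t| ^ (s - ∑ i ∈ Finset.range M, ll s i)
        ≤ 4 ^ (s - ∑ i ∈ Finset.range M, ll s i) := pow_le_pow_left₀ (abs_nonneg _) h1 _
      _ ≤ 4 ^ s := pow_le_pow_right₀ (by norm_num) (Nat.sub_le _ _)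
  have h3 : ∏ i ∈ Finset.range M, |(t - c i) ^ ll s i| ≤ (1 / 4) ^ s := by
    rw [← Finset.mul_prod_erase _ _ (Finset.mem_range.mpr hi)]
    have h4 : ∏ j ∈ (Finset.range M).erase i, |(t - c j) ^ ll s j| ≤ 1 := by
      apply Finset.prod_le_one
      · intro j _; positivity
      · intro j hj
        rw [abs_pow]
        apply pow_le_one₀ (abs_nonneg _)
        have := hc j (Finset.mem_range.mp (Finset.mem_of_mem_erase hj))
        rw [abs_le]; constructor <;> linarith [ht.1, ht.2, this.1, this.2]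
    have h5 : |(t - c i) ^ ll s i| ≤ (1 / 4) ^ s := by
      rw [abs_pow]
      have h6 : |t - c i| ≤ (1 / 4) ^ EE i := by
        rw [abs_of_nonneg (by linarith [hti.1])]
        linarith [hti.2, (hw i).2]
      calc |t - c i| ^ ll s i ≤ ((1 / 4) ^ EE i) ^ ll s i := pow_le_pow_left₀ (abs_nonneg _) h6 _
        _ = (1 / 4) ^ (EE i * ll s i) := by rw [pow_mul]
        _ ≤ (1 / 4) ^ s := pow_le_pow_of_le_one (by norm_num) (by norm_num) (ll_ge s i)
    calc |(t - c i) ^ ll s i| * ∏ j ∈ (Finset.range M).erase i, |(t - c j) ^ ll s j|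
        ≤ (1 / 4) ^ s * 1 := mul_le_mul h5 h4
          (Finset.prod_nonneg (fun _ _ => abs_nonneg _)) (by positivity)
      _ = (1 / 4) ^ s := mul_one _
  calc |4 * t| ^ (s - ∑ i ∈ Finset.range M, ll s i) * ∏ i ∈ Finset.range M, |(t - c i) ^ ll s i|
      ≤ 4 ^ s * (1 / 4) ^ s := mul_le_mul h2 h3
        (Finset.prod_nonneg (fun _ _ => abs_nonneg _)) (by positivity)
    _ = 1 := by rw [← mul_pow]; norm_num

theorem RR_lower {s M : ℕ} {c w : ℕ → ℝ} (h : ∑ i ∈ Finset.range M, ll s i ≤ s)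
    (hw : ∀ i, 0 < w i) {x : ℝ} (hx : x ∈ Icc (9 / 16 : ℝ) 1) (hA : Away w M c 1 x) :
    (2 : ℝ) ^ s ≤ 2 ^ (2 * ∑ i ∈ Finset.range M, (i + 13)) * ((RR s M c).eval x) ^ 2 := by
  set L := ∑ i ∈ Finset.range M, ll s i with hL
  set D := 2 * ∑ i ∈ Finset.range M, (i + 13) with hD
  have h1 : (2 : ℝ) ^ (s - L) ≤ |4 * x| ^ (s - L) := by
    apply pow_le_pow_left₀ (by norm_num)
    rw [abs_of_nonneg (by linarith [hx.1])]
    linarith [hx.1]
  have h2 : (1 / 2 : ℝ) ^ (∑ i ∈ Finset.range M, (i + 12) * ll s i) ≤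
      ∏ i ∈ Finset.range M, |(x - c i) ^ ll s i| := by
    rw [← Finset.prod_pow_eq_pow_sum]
    apply Finset.prod_le_prod
    · intro i _; positivity
    · intro i hi
      rw [abs_pow, pow_mul]
      apply pow_le_pow_left₀ (by positivity)
      have h3 := hA i (Finset.mem_range.mp hi)
      have h4 := hw i
      unfold dd at h3
      rcases h3 with h3 | h3
      · rw [abs_of_nonpos (by
          have : (0 : ℝ) < (1 / 2) ^ (i + 12) := by positivity
          linarith)]
        linarith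
      · rw [abs_of_nonneg (by
          have : (0 : ℝ) < (1 / 2) ^ (i + 12) := by positivity
          linarith)]
        linarith
  have h5 : (2 : ℝ) ^ (s - L) * (1 / 2 : ℝ) ^ (∑ i ∈ Finset.range M, (i + 12) * ll s i) ≤
      |(RR s M c).eval x| := by
    rw [RR_eval, abs_mul, abs_pow, Finset.abs_prod]
    exact mul_le_mul h1 h2 (by positivity) (by positivity)
  have h6 : (∑ i ∈ Finset.range M, (i + 12) * ll s i) + L =
      ∑ i ∈ Finset.range M, (i + 13) * ll s i := by
    rw [hL, ← Finset.sum_add_distrib]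
    apply Finset.sum_congr rfl
    intro i _
    ring
  set T := ∑ i ∈ Finset.range M, (i + 13) * ll s i with hT
  set U := ∑ i ∈ Finset.range M, (i + 12) * ll s i with hU
  have h7 : (2 : ℝ) ^ s ≤ 2 ^ T * |(RR s M c).eval x| := by
    have e1 : (2 : ℝ) ^ s = 2 ^ T * (2 ^ (s - L) * (1 / 2 : ℝ) ^ U) := by
      rw [← h6, pow_add, one_div, inv_pow]
      have e2 : (2 : ℝ) ^ s = 2 ^ L * 2 ^ (s - L) := by
        rw [← pow_add]; congr 1; omega
      rw [e2]
      field_simp
    rw [e1]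
    exact mul_le_mul_of_nonneg_left h5 (by positivity)
  have h8 : 2 * T ≤ s + D := exps s M
  have h9 : ((2 : ℝ) ^ s) ^ 2 ≤ (2 ^ T * |(RR s M c).eval x|) ^ 2 :=
    pow_le_pow_left₀ (by positivity) h7 2
  rw [mul_pow, sq_abs] at h9
  have h9' : ((2 : ℝ) ^ T) ^ 2 = 2 ^ (2 * T) := by rw [← pow_mul, mul_comm]
  rw [h9'] at h9
  have h10 : (2 : ℝ) ^ (2 * T) ≤ 2 ^ s * 2 ^ D := by
    rw [← pow_add]
    exact pow_le_pow_right₀ (by norm_num) h8
  have h11 : (2 : ℝ) ^ s * 2 ^ s ≤ 2 ^ s * (2 ^ D * ((RR s M c).eval x) ^ 2) := by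
    calc (2 : ℝ) ^ s * 2 ^ s = (2 ^ s) ^ 2 := by ring
      _ ≤ 2 ^ (2 * T) * ((RR s M c).eval x) ^ 2 := h9
      _ ≤ (2 ^ s * 2 ^ D) * ((RR s M c).eval x) ^ 2 :=
          mul_le_mul_of_nonneg_right h10 (by positivity)
      _ = _ := by ring
  exact le_of_mul_le_mul_left h11 (by positivity)

theorem int_le {f : ℝ → ℝ} {w : ℕ → ℝ} {M : ℕ} {c : ℕ → ℝ} {η : ℝ} (hT : Thin w M c η f)
    {W R : ℝ[X]} (hW : ∀ t ∈ Icc (0 : ℝ) 1, |W.eval t| ≤ 1)
    (h1 : ∀ t ∈ Icc (0 : ℝ) (1 / 4), |R.eval t| ≤ 1)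
    (h2 : ∀ t ∈ Icc (0 : ℝ) 1, ∀ i < M, t ∈ Icc (c i) (c i + w i) → |R.eval t| ≤ 1) :
    ∫ t, f t * (W * R * (W * R)).eval t ∂m01 ≤ ∫ t, f t ∂m01 := by
  apply integral_mono_ae (integrable_mul_poly hT.hf _) hT.hf
  filter_upwards [hT.hf0, hT.hsupp, m01_ae] with t ht0 hts ht
  have key : |R.eval t| ≤ 1 → f t * (W * R * (W * R)).eval t ≤ f t := by
    intro hR
    have hW' := hW t ht
    have e : (W * R * (W * R)).eval t = (|W.eval t| * |R.eval t|) ^ 2 := by
      simp only [eval_mul]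
      rw [mul_pow, sq_abs, sq_abs]
      ring
    rw [e]
    have h3 : (|W.eval t| * |R.eval t|) ^ 2 ≤ 1 := by
      apply pow_le_one₀ (by positivity)
      exact mul_le_one₀ hW' (abs_nonneg _) hR
    have h4 : (0 : ℝ) ≤ f t := ht0
    nlinarith
  by_cases hA : t ∈ Icc (0 : ℝ) (1 / 4)
  · exact key (h1 t hA)
  · by_cases hB : ∀ i < M, t ∉ Icc (c i) (c i + w i)
    · rw [hts hA hB]; simp
    · push Not at hB
      obtain ⟨i, hi, hti⟩ := hB
      exact key (h2 t ht i hi hti)

theorem taskGrow : TaskGrow := by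
  refine ⟨fun i => (1 / 4) ^ EE i, fun i => by positivity, ?_⟩
  intro w hw M c η f hT
  have hI0 : 0 ≤ ∫ t, f t ∂m01 := integral_nonneg_of_ae hT.hf0
  set D := 2 * ∑ i ∈ Finset.range M, (i + 13) with hD
  refine ⟨1 / (2 ^ D * (∫ t, f t ∂m01 + 1)), by positivity, ?_⟩
  intro W s q hW hON x hx hA
  set K := ∑ j ∈ Finset.range (s + 1), ((q j).eval x) ^ 2 with hK
  have hK0 : 0 ≤ K := Finset.sum_nonneg (fun _ _ => sq_nonneg _)
  have hmain : ∃ R : ℝ[X], R.natDegree ≤ s ∧ (∀ t ∈ Icc (0 : ℝ) (1 / 4), |R.eval t| ≤ 1) ∧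
      (∀ t ∈ Icc (0 : ℝ) 1, ∀ i < M, t ∈ Icc (c i) (c i + w i) → |R.eval t| ≤ 1) ∧
      (2 : ℝ) ^ s ≤ 2 ^ D * (R.eval x) ^ 2 := by
    by_cases hL : ∑ i ∈ Finset.range M, ll s i ≤ s
    · exact ⟨RR s M c, RR_deg s M c hL, fun t ht => RR_low hT.hc ht,
        fun t ht i hi hti => RR_blob hT.hc hw ht hi hti,
        RR_lower hL (fun i => (hw i).1) hx hA⟩
    · refine ⟨1, by simp, fun t _ => by simp, fun t _ i _ _ => by simp, ?_⟩
      have h1 := exps s M
      have h2 : 13 * ∑ i ∈ Finset.range M, ll s i ≤ ∑ i ∈ Finset.range M, (i + 13) * ll s i := by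
        rw [Finset.mul_sum]
        apply Finset.sum_le_sum
        intro i _
        apply Nat.mul_le_mul_right
        omega
      have h3 : s ≤ D := by omega
      simp only [eval_one, one_pow, mul_one]
      exact pow_le_pow_right₀ (by norm_num) h3
  obtain ⟨R, hRd, hR1, hR2, hR3⟩ := hmain
  have h1 := grow_cs hT.hf hON R hRd x
  have h2 := int_le hT hW hR1 hR2
  rw [← hK] at h1
  have h3 : (R.eval x) ^ 2 ≤ K * (∫ t, f t ∂m01 + 1) :=
    h1.trans (mul_le_mul_of_nonneg_left (by linarith) hK0)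
  rw [one_div, inv_mul_le_iff₀ (by positivity)]
  calc (2 : ℝ) ^ s ≤ 2 ^ D * (R.eval x) ^ 2 := hR3
    _ ≤ 2 ^ D * (K * (∫ t, f t ∂m01 + 1)) := mul_le_mul_of_nonneg_left h3 (by positivity)
    _ = _ := by ring

end Pool.Agent.H643R3.CLT
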